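import Pool.Agent.J4H58.XC.Stm

/-!
# (X1) of project XC: Poincare's inequality gives the decay of functions with mean zero
-/

set_option autoImplicit false

namespace Pool.Agent.J4H44.XC

open Finset Pool.Agent.J4H58.XC

variable {S : Type} (A : Finset S) (m : S → ℝ) (c : S → S → ℝ)

/-- inner product -/
noncomputable def ip (F G : S → ℝ) : ℝ := ∑ s ∈ A, m s * F s * G s

/-- Dirichlet form -/
noncomputable def df (F G : S → ℝ) : ℝ :=
  1 / 2 * ∑ s ∈ A, ∑ t ∈ A, c s t * (F t - F s) * (G t - G s)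

lemma df_eq (h : ∀ s t, c s t = c t s) (F G : S → ℝ) :
    ∑ s ∈ A, ∑ t ∈ A, c s t * (F t - F s) * G s = - df A c F G := by
  have h1 : ∑ s ∈ A, ∑ t ∈ A, c s t * (F t - F s) * G t =
      - ∑ s ∈ A, ∑ t ∈ A, c s t * (F t - F s) * G s := by
    rw [Finset.sum_comm, ← Finset.sum_neg_distrib]
    refine Finset.sum_congr rfl fun s _ => ?_
    rw [← Finset.sum_neg_distrib]
    refine Finset.sum_congr rfl fun t _ => ?_
    rw [h t s]
    ring
  have h2 : ∑ s ∈ A, ∑ t ∈ A, c s t * (F t - F s) * (G t - G s) =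
      ∑ s ∈ A, ∑ t ∈ A, c s t * (F t - F s) * G t -
        ∑ s ∈ A, ∑ t ∈ A, c s t * (F t - F s) * G s := by
    rw [← Finset.sum_sub_distrib]
    refine Finset.sum_congr rfl fun s _ => ?_
    rw [← Finset.sum_sub_distrib]
    refine Finset.sum_congr rfl fun t _ => ?_
    ring
  unfold df
  rw [h2, h1]
  ring

lemma ip_st (h : Ch A m c) (ε : ℝ) (F G : S → ℝ) :
    ip A m (st A m c ε F) G = ip A m F G - ε * df A c F G := by
  have h1 := df_eq A c h.symm F G
  have h2 : ip A m (st A m c ε F) G =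
      ip A m F G + ε * ∑ s ∈ A, ∑ t ∈ A, c s t * (F t - F s) * G s := by
    unfold ip st
    rw [Finset.mul_sum, ← Finset.sum_add_distrib]
    refine Finset.sum_congr rfl fun s hs => ?_
    have h3 : m s ≠ 0 := (h.pos s hs).ne'
    rw [← Finset.sum_mul]
    field_simp
  rw [h2, h1]
  ring

lemma df_self (F : S → ℝ) : df A c F F = en A c F := by
  unfold df en
  congr 1
  refine Finset.sum_congr rfl fun s _ => Finset.sum_congr rfl fun t _ => ?_
  ring

lemma en_le (h : Ch A m c) (F : S → ℝ) : en A c F ≤ 2 * ∑ s ∈ A, F s ^ 2 * ∑ t ∈ A, c s t := by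
  have h1 : ∑ s ∈ A, ∑ t ∈ A, c s t * (F t - F s) ^ 2 ≤
      ∑ s ∈ A, ∑ t ∈ A, (2 * (c s t * F t ^ 2) + 2 * (c s t * F s ^ 2)) := by
    refine Finset.sum_le_sum fun s _ => Finset.sum_le_sum fun t _ => ?_
    have h3 := h.nn s t
    nlinarith [mul_nonneg h3 (sq_nonneg (F t + F s))]
  have h2 : ∑ s ∈ A, ∑ t ∈ A, c s t * F t ^ 2 = ∑ s ∈ A, ∑ t ∈ A, c s t * F s ^ 2 := by
    rw [Finset.sum_comm]
    refine Finset.sum_congr rfl fun s _ => Finset.sum_congr rfl fun t _ => ?_
    rw [h.symm t s]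
  have h3 : ∑ s ∈ A, ∑ t ∈ A, c s t * F s ^ 2 = ∑ s ∈ A, F s ^ 2 * ∑ t ∈ A, c s t := by
    refine Finset.sum_congr rfl fun s _ => ?_
    rw [Finset.mul_sum]
    refine Finset.sum_congr rfl fun t _ => ?_
    ring
  simp only [Finset.sum_add_distrib, ← Finset.mul_sum] at h1
  rw [h2, h3] at h1
  unfold en
  linarith

lemma pos_form (h : Ch A m c) {ε : ℝ} (hε : 0 < ε)
    (hc : ∀ s ∈ A, ε * ∑ t ∈ A, c s t ≤ m s / 2) (F : S → ℝ) :
    0 ≤ ip A m (st A m c ε F) F := by
  rw [ip_st A m c h, df_self]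
  have h1 := mul_le_mul_of_nonneg_left (en_le A m c h F) hε.le
  have h2 : ε * (2 * ∑ s ∈ A, F s ^ 2 * ∑ t ∈ A, c s t) ≤ ip A m F F := by
    unfold ip
    rw [Finset.mul_sum, Finset.mul_sum]
    refine Finset.sum_le_sum fun s hs => ?_
    have h3 := mul_le_mul_of_nonneg_left (hc s hs) (sq_nonneg (F s))
    nlinarith [h3]
  linarith

lemma ip_add_left (F G H : S → ℝ) (x : ℝ) :
    ip A m (fun s => F s + x * G s) H = ip A m F H + x * ip A m G H := by
  unfold ip
  rw [Finset.mul_sum, ← Finset.sum_add_distrib]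
  refine Finset.sum_congr rfl fun s _ => ?_
  ring

lemma ip_comm (F G : S → ℝ) : ip A m F G = ip A m G F := by
  unfold ip
  refine Finset.sum_congr rfl fun s _ => ?_
  ring

lemma df_comm (F G : S → ℝ) : df A c F G = df A c G F := by
  unfold df
  congr 1
  refine Finset.sum_congr rfl fun s _ => Finset.sum_congr rfl fun t _ => ?_
  ring

lemma df_add_left (F G H : S → ℝ) (x : ℝ) :
    df A c (fun s => F s + x * G s) H = df A c F H + x * df A c G H := by
  unfold df
  have h1 : ∑ s ∈ A, ∑ t ∈ A, c s t * ((F t + x * G t) - (F s + x * G s)) * (H t - H s) =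
      ∑ s ∈ A, ∑ t ∈ A, c s t * (F t - F s) * (H t - H s) +
        x * ∑ s ∈ A, ∑ t ∈ A, c s t * (G t - G s) * (H t - H s) := by
    rw [Finset.mul_sum, ← Finset.sum_add_distrib]
    refine Finset.sum_congr rfl fun s _ => ?_
    rw [Finset.mul_sum, ← Finset.sum_add_distrib]
    refine Finset.sum_congr rfl fun t _ => ?_
    ring
  rw [h1]
  ring

/-- the form `⟨T F, G⟩` -/
lemma form_comm (h : Ch A m c) (ε : ℝ) (F G : S → ℝ) :
    ip A m (st A m c ε F) G = ip A m (st A m c ε G) F := by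
  rw [ip_st A m c h, ip_st A m c h, ip_comm A m F G, df_comm A c F G]

lemma form_cs (h : Ch A m c) {ε : ℝ} (hε : 0 < ε)
    (hc : ∀ s ∈ A, ε * ∑ t ∈ A, c s t ≤ m s / 2) (F G : S → ℝ) :
    (ip A m (st A m c ε F) G) ^ 2 ≤
      ip A m (st A m c ε F) F * ip A m (st A m c ε G) G := by
  have h1 : ∀ x : ℝ, 0 ≤ ip A m (st A m c ε G) G * (x * x) +
      (2 * ip A m (st A m c ε F) G) * x + ip A m (st A m c ε F) F := by
    intro x
    have h2 := pos_form A m c h hε hc (fun s => F s + x * G s)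
    rw [ip_st A m c h, ip_add_left, df_add_left, ip_comm A m F, ip_comm A m G, df_comm A c F,
      df_comm A c G, ip_add_left, ip_add_left, df_add_left, df_add_left] at h2
    rw [ip_st A m c h, ip_st A m c h, ip_st A m c h]
    have e1 : ip A m G F = ip A m F G := ip_comm A m G F
    have e2 : df A c G F = df A c F G := df_comm A c G F
    rw [e1, e2] at h2
    nlinarith [h2]
  have h2 := discrim_le_zero h1
  unfold discrim at h2
  nlinarith [h2]

lemma mean_st (h : Ch A m c) (ε : ℝ) (F : S → ℝ) (hF : ∑ s ∈ A, m s * F s = 0) :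
    ∑ s ∈ A, m s * st A m c ε F s = 0 := by
  have h1 := ip_st A m c h ε F (fun _ => 1)
  have h2 : df A c F (fun _ => 1) = 0 := by
    unfold df
    simp
  rw [h2] at h1
  unfold ip at h1
  simp only [mul_one, mul_zero, sub_zero] at h1
  rw [h1, hF]

lemma step (h : Ch A m c) {K ε : ℝ} (hK : 0 < K) (hε : 0 < ε)
    (hc : ∀ s ∈ A, ε * ∑ t ∈ A, c s t ≤ m s / 2) (hP : PA A m c K) (F : S → ℝ)
    (hF : ∑ s ∈ A, m s * F s = 0) :
    ip A m (st A m c ε F) (st A m c ε F) ≤ (1 - ε / K) ^ 2 * ip A m F F := by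
  have hle : ∀ G : S → ℝ, ∑ s ∈ A, m s * G s = 0 →
      ip A m (st A m c ε G) G ≤ (1 - ε / K) * ip A m G G := by
    intro G hG
    have h1 := hP G
    have h2 : ∑ s ∈ A, m s * G s ^ 2 = ip A m G G := by
      unfold ip
      refine Finset.sum_congr rfl fun s _ => ?_
      ring
    rw [hG, h2] at h1
    have h3 : ip A m G G ≤ K * en A c G := by
      rcases Finset.eq_empty_or_nonempty A with rfl | hA
      · unfold ip en
        simp
      · have h4 : 0 < ∑ s ∈ A, m s := Finset.sum_pos (fun s hs => h.pos s hs) hA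
        have h5 : (∑ s ∈ A, m s) * ip A m G G ≤ (∑ s ∈ A, m s) * (K * en A c G) := by
          linarith
        exact le_of_mul_le_mul_left h5 h4
    rw [ip_st A m c h, df_self]
    have h6 : ip A m G G / K ≤ en A c G := by
      rw [div_le_iff₀ hK]
      linarith
    have h7 := mul_le_mul_of_nonneg_left h6 hε.le
    have h8 : ε * (ip A m G G / K) = ε / K * ip A m G G := by ring
    rw [h8] at h7
    linarith
  have hnn : ∀ G : S → ℝ, 0 ≤ ip A m G G := by
    intro G
    unfold ip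
    refine Finset.sum_nonneg fun s hs => ?_
    have := h.pos s hs
    nlinarith [mul_nonneg this.le (sq_nonneg (G s))]
  have h1 := form_cs A m c h hε hc F (st A m c ε F)
  have h2 := hle F hF
  have h3 := hle (st A m c ε F) (mean_st A m c h ε F hF)
  have h4 := pos_form A m c h hε hc F
  have h5 := pos_form A m c h hε hc (st A m c ε F)
  have h6 : ip A m (st A m c ε F) F * ip A m (st A m c ε (st A m c ε F)) (st A m c ε F) ≤
      ((1 - ε / K) * ip A m F F) * ((1 - ε / K) * ip A m (st A m c ε F) (st A m c ε F)) :=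
    mul_le_mul h2 h3 h5 (h4.trans h2)
  have h7 := h1.trans h6
  rcases (hnn (st A m c ε F)).eq_or_lt with h8 | h8
  · rw [← h8]
    exact mul_nonneg (sq_nonneg _) (hnn F)
  · have h9 : ip A m (st A m c ε F) (st A m c ε F) * ip A m (st A m c ε F) (st A m c ε F) ≤
        ip A m (st A m c ε F) (st A m c ε F) * ((1 - ε / K) ^ 2 * ip A m F F) := by
      nlinarith [h7]
    exact le_of_mul_le_mul_left h9 h8

theorem t_X1 : S_X1 := by
  intro S _ A m c K ε h hK hε hc hP F hF k
  have h2 : ∀ G : S → ℝ, ∑ s ∈ A, m s * G s ^ 2 = ip A m G G := by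
    intro G
    unfold ip
    refine Finset.sum_congr rfl fun s _ => ?_
    ring
  have key : ∑ s ∈ A, m s * ((st A m c ε)^[k]) F s = 0 ∧
      ip A m (((st A m c ε)^[k]) F) (((st A m c ε)^[k]) F) ≤
        (1 - ε / K) ^ (2 * k) * ip A m F F := by
    induction k with
    | zero => exact ⟨hF, by simp⟩
    | succ k ih =>
      rw [Function.iterate_succ_apply']
      refine ⟨mean_st A m c h ε _ ih.1, ?_⟩
      refine (step A m c h hK hε hc hP _ ih.1).trans ?_
      have h3 := mul_le_mul_of_nonneg_left ih.2 (sq_nonneg (1 - ε / K))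
      refine h3.trans (le_of_eq ?_)
      ring
  rw [h2, h2]
  exact key.2

end Pool.Agent.J4H44.XC
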