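import Pool.Agent.J4H58.XC.Stm

/-!
# (X4) of project XC: linear extensions are connected by exchanges of neighbours
-/

set_option autoImplicit false

namespace Pool.Agent.J4H44.XC

open Finset Pool.Agent.J4H58.XC

/-- the potential `∑ k τ(k)` -/
def pot {n : ℕ} (τ : Equiv.Perm (Fin n)) : ℕ := ∑ k : Fin n, (k : ℕ) * (τ k : ℕ)

lemma pot_le {n : ℕ} (τ : Equiv.Perm (Fin n)) : pot τ ≤ n ^ 3 := by
  unfold pot
  have h1 : ∑ k : Fin n, (k : ℕ) * (τ k : ℕ) ≤ ∑ _k : Fin n, n * n :=
    Finset.sum_le_sum fun k _ => Nat.mul_le_mul k.2.le (τ k).2.le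
  rw [Finset.sum_const, Finset.card_univ, Fintype.card_fin, smul_eq_mul] at h1
  refine h1.trans (le_of_eq ?_)
  ring

lemma exists_adj {n : ℕ} (τ : Equiv.Perm (Fin n)) (h : τ ≠ 1) :
    ∃ i j : Fin n, (i : ℕ) + 1 = j ∧ τ j < τ i := by
  by_contra hcon
  push Not at hcon
  apply h
  rcases n with _ | n
  · exact Subsingleton.elim _ _
  · have h1 : StrictMono τ := by
      rw [Fin.strictMono_iff_lt_succ]
      intro i
      refine lt_of_le_of_ne (hcon i.castSucc i.succ (by simp)) ?_
      intro h2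
      have h3 := τ.injective h2
      exact (Fin.castSucc_lt_succ).ne h3
    have h2 : (τ : Fin (n + 1) → Fin (n + 1)) = id :=
      (StrictMono.range_inj h1 strictMono_id).1 (by rw [τ.surjective.range_eq, Set.range_id])
    ext i
    rw [h2]
    rfl

lemma pot_lt {n : ℕ} (τ : Equiv.Perm (Fin n)) (i j : Fin n) (hij : (i : ℕ) + 1 = j)
    (h : τ j < τ i) : pot τ < pot (τ * Equiv.swap i j) := by
  have hne : i ≠ j := by
    rintro rfl
    omega
  unfold pot
  rw [← Finset.add_sum_erase _ _ (Finset.mem_univ i),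
    ← Finset.add_sum_erase _ _ (Finset.mem_univ i),
    ← Finset.add_sum_erase (univ.erase i) _ (Finset.mem_erase.2 ⟨hne.symm, Finset.mem_univ j⟩),
    ← Finset.add_sum_erase (univ.erase i) _ (Finset.mem_erase.2 ⟨hne.symm, Finset.mem_univ j⟩)]
  have h1 : ∑ k ∈ (univ.erase i).erase j, (k : ℕ) * ((τ * Equiv.swap i j) k : ℕ) =
      ∑ k ∈ (univ.erase i).erase j, (k : ℕ) * (τ k : ℕ) := by
    refine Finset.sum_congr rfl fun k hk => ?_
    rw [Finset.mem_erase, Finset.mem_erase] at hk
    rw [Equiv.Perm.mul_apply, Equiv.swap_apply_of_ne_of_ne hk.2.1 hk.1]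
  rw [h1, Equiv.Perm.mul_apply, Equiv.Perm.mul_apply, Equiv.swap_apply_left,
    Equiv.swap_apply_right]
  have h2 : (τ j : ℕ) < (τ i : ℕ) := h
  have h3 : (j : ℕ) * (τ i : ℕ) = (i : ℕ) * (τ i : ℕ) + (τ i : ℕ) := by
    rw [← hij]
    ring
  have h4 : (j : ℕ) * (τ j : ℕ) = (i : ℕ) * (τ j : ℕ) + (τ j : ℕ) := by
    rw [← hij]
    ring
  omega

lemma lin_swap {n : ℕ} (R : Fin n → Fin n → Prop) (q q' : Equiv.Perm (Fin n)) (hq : q ∈ Lin R)
    (hq' : q' ∈ Lin R) (i j : Fin n) (hij : (i : ℕ) + 1 = j)
    (h : (q'⁻¹ * q) j < (q'⁻¹ * q) i) : q * Equiv.swap i j ∈ Lin R := by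
  have hlt : i < j := by
    rw [Fin.lt_def]
    omega
  have hnot1 : ¬ R (q i) (q j) := by
    intro hR
    have e : ∀ x, q' (q'⁻¹ x) = x := fun x => q'.apply_symm_apply x
    have h1 := hq' (q'⁻¹ (q i)) (q'⁻¹ (q j)) (by
      rw [e, e]
      exact hR)
    exact absurd h (not_lt.2 h1.le)
  intro a b hR
  rw [Equiv.Perm.mul_apply, Equiv.Perm.mul_apply] at hR
  have h1 := hq _ _ hR
  by_cases hai : a = i
  · subst hai
    rw [Equiv.swap_apply_left] at h1 hR
    by_cases hbj : b = j
    · subst hbj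
      exact hlt
    · by_cases hba : b = a
      · subst hba
        rw [Equiv.swap_apply_left] at h1
        exact absurd h1 (lt_irrefl _)
      · rw [Equiv.swap_apply_of_ne_of_ne hba hbj] at h1
        exact hlt.trans h1
  · by_cases haj : a = j
    · subst haj
      rw [Equiv.swap_apply_right] at h1 hR
      by_cases hba : b = a
      · subst hba
        rw [Equiv.swap_apply_right] at h1
        exact absurd h1 (lt_irrefl _)
      · by_cases hbi : b = i
        · subst hbi
          rw [Equiv.swap_apply_left] at hR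
          exact absurd hR hnot1
        · rw [Equiv.swap_apply_of_ne_of_ne hbi hba] at h1
          rw [Fin.lt_def] at h1 ⊢
          have h2 : (b : ℕ) ≠ (a : ℕ) := fun h => hba (Fin.ext h)
          omega
    · rw [Equiv.swap_apply_of_ne_of_ne hai haj] at h1
      by_cases hbi : b = i
      · subst hbi
        rw [Equiv.swap_apply_left] at h1
        rw [Fin.lt_def] at h1 ⊢
        have h2 : (a : ℕ) ≠ (b : ℕ) := fun h => hai (Fin.ext h)
        omega
      · by_cases hbj : b = j
        · subst hbj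
          rw [Equiv.swap_apply_right] at h1
          exact h1.trans hlt
        · rw [Equiv.swap_apply_of_ne_of_ne hbi hbj] at h1
          exact h1

theorem t_X4 : S_X4 := by
  intro n
  refine ⟨(n ^ 3 : ℕ), fun R h D hD hh q hq q' hq' => ?_⟩
  have key : ∀ N : ℕ, ∀ q ∈ Lin R, n ^ 3 - pot (q'⁻¹ * q) ≤ N → |h q - h q'| ≤ N * D := by
    intro N
    induction N with
    | zero =>
      intro q hq hN
      by_cases h1 : q'⁻¹ * q = 1
      · have h2 : q = q' := by
          rw [inv_mul_eq_one] at h1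
          exact h1.symm
        rw [h2]
        simp
      · exfalso
        obtain ⟨i, j, hij, hlt⟩ := exists_adj _ h1
        have h2 := pot_lt _ i j hij hlt
        have h3 := pot_le (q'⁻¹ * q * Equiv.swap i j)
        omega
    | succ N ih =>
      intro q hq hN
      by_cases h1 : q'⁻¹ * q = 1
      · have h2 : q = q' := by
          rw [inv_mul_eq_one] at h1
          exact h1.symm
        rw [h2, sub_self, abs_zero]
        positivity
      · obtain ⟨i, j, hij, hlt⟩ := exists_adj _ h1
        have h2 := pot_lt _ i j hij hlt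
        have h3 := pot_le (q'⁻¹ * q * Equiv.swap i j)
        have h4 := lin_swap R q q' hq hq' i j hij hlt
        have h5 := hh q hq i j hij h4
        have h6 := ih (q * Equiv.swap i j) h4 (by rw [← mul_assoc]; omega)
        have h7 : |h q - h q'| ≤ |h (q * Equiv.swap i j) - h q| + |h (q * Equiv.swap i j) - h q'| := by
          rw [abs_sub_comm (h (q * Equiv.swap i j)) (h q)]
          exact abs_sub_le _ _ _
        push_cast
        linarith
  have h1 := key (n ^ 3) q hq (Nat.sub_le _ _)
  exact h1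

end Pool.Agent.J4H44.XC
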