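import Pool.Agent.J4H58.XC.Stm

/-!
# (X6) of project XC: order constraints do not decrease the spectral gap of an exchangeable system
-/

set_option autoImplicit false

namespace Pool.Agent.J4H44.XC.Cmp

open Finset Pool.Agent.J4H58.XC

lemma exists_eps {ι : Type} (A : Finset ι) (m x : ι → ℝ) (hm : ∀ s ∈ A, 0 < m s)
    (hx : ∀ s ∈ A, 0 ≤ x s) :
    ∃ ε₀ : ℝ, 0 < ε₀ ∧ ∀ ε : ℝ, 0 < ε → ε ≤ ε₀ → ∀ s ∈ A, ε * x s ≤ m s / 2 := by
  classical
  induction A using Finset.induction_on with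
  | empty => exact ⟨1, one_pos, fun _ _ _ s hs => absurd hs (Finset.notMem_empty s)⟩
  | insert b A hb ih =>
    obtain ⟨e, he, h⟩ := ih (fun s hs => hm s (Finset.mem_insert_of_mem hs))
      (fun s hs => hx s (Finset.mem_insert_of_mem hs))
    have hmb := hm b (Finset.mem_insert_self _ _)
    have hxb := hx b (Finset.mem_insert_self _ _)
    refine ⟨min e (m b / 2 / (x b + 1)), lt_min he (by positivity), fun ε hε hle s hs => ?_⟩
    rcases Finset.mem_insert.1 hs with rfl | hs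
    · have h1 : ε ≤ m s / 2 / (x s + 1) := hle.trans (min_le_right _ _)
      have h2 : ε * x s ≤ ε * (x s + 1) := by nlinarith
      have h3 : ε * (x s + 1) ≤ m s / 2 := by rwa [le_div_iff₀ (by positivity)] at h1
      linarith
    · exact h ε hε (hle.trans (min_le_left _ _)) s hs

section chain

variable {S : Type} (A : Finset S) (m : S → ℝ) (c : S → S → ℝ)

lemma st_sub (ε : ℝ) (F : S → ℝ) (x : ℝ) :
    st A m c ε (fun s => F s - x) = fun s => st A m c ε F s - x := by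
  funext s
  unfold st
  have h1 : ∀ t, (F t - x) - (F s - x) = F t - F s := fun t => by ring
  simp only [h1]
  ring

lemma iter_sub (ε : ℝ) (F : S → ℝ) (x : ℝ) (k : ℕ) :
    ((st A m c ε)^[k]) (fun s => F s - x) = fun s => ((st A m c ε)^[k]) F s - x := by
  induction k with
  | zero => rfl
  | succ k ih => rw [Function.iterate_succ_apply', ih, st_sub, Function.iterate_succ_apply']

/-- pointwise decay -/
lemma pw (X1 : S_X1) [DecidableEq S] (K ε : ℝ) (h : Ch A m c) (hK : 0 < K) (hε : 0 < ε)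
    (hεK : ε < K) (hc : ∀ s ∈ A, ε * ∑ t ∈ A, c s t ≤ m s / 2) (hP : PA A m c K) (F : S → ℝ)
    (hF : ∑ s ∈ A, m s * F s = 0) :
    ∃ C : ℝ, 0 ≤ C ∧ ∀ k : ℕ, ∀ s ∈ A, |((st A m c ε)^[k]) F s| ≤ C * (1 - ε / K) ^ k := by
  have hθ : 0 ≤ 1 - ε / K := by
    have : ε / K ≤ 1 := by rw [div_le_one hK]; exact hεK.le
    linarith
  have hE : 0 ≤ ∑ s ∈ A, m s * F s ^ 2 :=
    Finset.sum_nonneg fun s hs => mul_nonneg (h.pos s hs).le (sq_nonneg _)
  refine ⟨∑ s ∈ A, Real.sqrt ((∑ s ∈ A, m s * F s ^ 2) / m s),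
    Finset.sum_nonneg fun s _ => Real.sqrt_nonneg _, fun k s hs => ?_⟩
  have h1 := X1 S A m c K ε h hK hε hc hP F hF k
  have h2 : m s * (((st A m c ε)^[k]) F s) ^ 2 ≤
      ∑ s ∈ A, m s * (((st A m c ε)^[k]) F s) ^ 2 :=
    Finset.single_le_sum (f := fun s => m s * (((st A m c ε)^[k]) F s) ^ 2)
      (fun t ht => mul_nonneg (h.pos t ht).le (sq_nonneg _)) hs
  have hm := h.pos s hs
  have h3 : (((st A m c ε)^[k]) F s) ^ 2 ≤
      (Real.sqrt ((∑ s ∈ A, m s * F s ^ 2) / m s) * (1 - ε / K) ^ k) ^ 2 := by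
    rw [mul_pow, Real.sq_sqrt (div_nonneg hE hm.le), ← pow_mul, mul_comm k 2,
      div_mul_eq_mul_div, le_div_iff₀ hm]
    linarith
  have h4 := abs_le_of_sq_le_sq h3 (mul_nonneg (Real.sqrt_nonneg _) (pow_nonneg hθ k))
  refine h4.trans ?_
  refine mul_le_mul_of_nonneg_right ?_ (pow_nonneg hθ k)
  exact Finset.single_le_sum (f := fun s => Real.sqrt ((∑ s ∈ A, m s * F s ^ 2) / m s))
    (fun t _ => Real.sqrt_nonneg _) hs

end chain

section sys

variable {n : ℕ} {Y : Type} [DecidableEq Y] {B : Finset Y} {p : Y → ℝ} {a : Y → Y → ℝ}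
  {l : ℕ → Y → ℝ}

lemma cd_nn (h : Sys B p a l) (s t : Y × Equiv.Perm (Fin n)) : 0 ≤ cd a l s t := by
  unfold cd
  refine add_nonneg ?_ ?_
  · split_ifs
    · exact h.ann _ _
    · exact le_rfl
  · split_ifs
    · refine Finset.sum_nonneg fun i _ => Finset.sum_nonneg fun j _ => ?_
      split_ifs
      · exact h.lnn _ _
      · exact le_rfl
    · exact le_rfl

lemma cd_symm (h : Sys B p a l) (s t : Y × Equiv.Perm (Fin n)) : cd a l s t = cd a l t s := by
  unfold cd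
  congr 1
  · by_cases h1 : s.2 = t.2
    · rw [if_pos h1, if_pos h1.symm, h.asymm]
    · rw [if_neg h1, if_neg (fun h => h1 h.symm)]
  · by_cases h1 : s.1 = t.1
    · rw [if_pos h1, if_pos h1.symm]
      refine Finset.sum_congr rfl fun i _ => Finset.sum_congr rfl fun j _ => ?_
      have h2 : (t.2 = s.2 * Equiv.swap i j) ↔ (s.2 = t.2 * Equiv.swap i j) := by
        constructor
        · intro h
          rw [h, mul_assoc, Equiv.swap_mul_self, mul_one]
        · intro h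
          rw [h, mul_assoc, Equiv.swap_mul_self, mul_one]
      simp only [h2, h1]
    · rw [if_neg h1, if_neg (fun h => h1 h.symm)]

lemma ch (h : Sys B p a l) (R : Fin n → Fin n → Prop) :
    Ch (sts B R) (fun s : Y × Equiv.Perm (Fin n) => p s.1) (cd a l) where
  pos := by
    intro s hs
    unfold sts at hs
    rw [Finset.mem_product] at hs
    exact h.pos _ hs.1
  nn := cd_nn h
  symm := cd_symm h

open Classical in
/-- the linear extensions -/
noncomputable def LL (R : Fin n → Fin n → Prop) : Finset (Equiv.Perm (Fin n)) :=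
  Finset.univ.filter fun q => q ∈ Lin R

open Classical in
lemma mem_LL (R : Fin n → Fin n → Prop) (q : Equiv.Perm (Fin n)) : q ∈ LL R ↔ q ∈ Lin R := by
  unfold LL
  rw [Finset.mem_filter]
  exact ⟨fun h => h.2, fun h => ⟨Finset.mem_univ q, h⟩⟩

lemma sts_eq (B : Finset Y) (R : Fin n → Fin n → Prop) : sts B R = B ×ˢ LL R := rfl

lemma sum_sts (y : Y) (R : Fin n → Fin n → Prop) (F : Y × Equiv.Perm (Fin n) → ℝ) :
    ∑ t ∈ sts {y} R, F t = ∑ q ∈ LL R, F (y, q) := by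
  rw [sts_eq, Finset.sum_product, Finset.sum_singleton]

lemma mem_sts (R : Fin n → Fin n → Prop) (y : Y) (q : Equiv.Perm (Fin n)) :
    (y, q) ∈ sts B R ↔ y ∈ B ∧ q ∈ Lin R := by
  rw [sts_eq, Finset.mem_product, mem_LL]

lemma lin_false (q : Equiv.Perm (Fin n)) : q ∈ Lin (fun _ _ : Fin n => False) := by
  intro i j h
  exact h.elim

lemma mem_sts' (y : Y) (q : Equiv.Perm (Fin n)) :
    (y, q) ∈ sts B (fun _ _ : Fin n => False) ↔ y ∈ B := by
  rw [mem_sts]
  exact ⟨fun h => h.1, fun h => ⟨h, lin_false q⟩⟩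

lemma iter_dm (X3 : S_X3) {R : Fin n → Fin n → Prop} {ε : ℝ} (h : Sys B p a l) (hε : 0 < ε)
    (hc : ∀ y ∈ B, ε * (∑ z ∈ B, a y z + 2 * ∑ k ∈ range n, l k y) ≤ p y / 2)
    {F : Y × Equiv.Perm (Fin n) → ℝ} {Θ : Y → Fin n → ℝ} (hd : Dm B R F Θ) (k : ℕ) :
    Dm B R (((st (sts B R) (fun s => p s.1) (cd a l) ε)^[k]) F) (((tg B p a l ε)^[k]) Θ) := by
  induction k with
  | zero => exact hd
  | succ k ih =>
    rw [Function.iterate_succ_apply', Function.iterate_succ_apply']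
    exact X3 n Y B p a l R ε h hε hc _ _ ih

end sys

theorem t_X6 : S_X1 → S_X2 → S_X3 → S_X4 → S_X5 → S_CMP := by
  intro X1 X2 X3 X4 X5 n Y _ B p a l R K h hK hP
  obtain ⟨M, hM⟩ := X4 n
  -- choice of ε
  obtain ⟨e1, he1, hh1⟩ := exists_eps (sts B fun _ _ : Fin n => False) (fun s => p s.1)
    (fun s => ∑ t ∈ sts B fun _ _ => False, cd a l s t) (ch h _).pos
    (fun s _ => Finset.sum_nonneg fun t _ => cd_nn h s t)
  obtain ⟨e2, he2, hh2⟩ := exists_eps (sts B R) (fun s => p s.1)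
    (fun s => ∑ t ∈ sts B R, cd a l s t) (ch h _).pos
    (fun s _ => Finset.sum_nonneg fun t _ => cd_nn h s t)
  obtain ⟨e3, he3, hh3⟩ := exists_eps B p
    (fun y => ∑ z ∈ B, a y z + 2 * ∑ k ∈ range n, l k y) h.pos
    (fun y _ => add_nonneg (Finset.sum_nonneg fun z _ => h.ann y z)
      (mul_nonneg two_pos.le (Finset.sum_nonneg fun k _ => h.lnn k y)))
  obtain ⟨ε, hε, hεK, hε1, hε2, hε3⟩ : ∃ ε : ℝ, 0 < ε ∧ ε < K ∧ ε ≤ e1 ∧ ε ≤ e2 ∧ ε ≤ e3 := by
    refine ⟨min (K / 2) (min e1 (min e2 e3)), lt_min (by positivity)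
      (lt_min he1 (lt_min he2 he3)), ?_, ?_, ?_, ?_⟩
    · exact (min_le_left _ _).trans_lt (by linarith)
    · exact (min_le_right _ _).trans (min_le_left _ _)
    · exact (min_le_right _ _).trans ((min_le_right _ _).trans (min_le_left _ _))
    · exact (min_le_right _ _).trans ((min_le_right _ _).trans (min_le_right _ _))
  have hc1 := hh1 ε hε hε1
  have hc2 := hh2 ε hε hε2
  have hc3 := hh3 ε hε hε3
  have hθ : 0 ≤ 1 - ε / K := by
    have : ε / K ≤ 1 := by rw [div_le_one hK]; exact hεK.le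
    linarith
  refine X2 (Y × Equiv.Perm (Fin n)) (sts B R) (fun s => p s.1) (cd a l) K ε (ch h R) hε hεK hc2
    fun F hF => ?_
  -- the domination
  set Dd : ℝ := 2 * ∑ s ∈ B ×ˢ (Finset.univ : Finset (Equiv.Perm (Fin n))), |F s| with hDd
  have hDd0 : 0 ≤ Dd := mul_nonneg two_pos.le (Finset.sum_nonneg fun _ _ => abs_nonneg _)
  have hFs : ∀ y ∈ B, ∀ q : Equiv.Perm (Fin n), 2 * |F (y, q)| ≤ Dd := by
    intro y hy q
    rw [hDd]
    refine mul_le_mul_of_nonneg_left ?_ two_pos.le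
    exact Finset.single_le_sum (f := fun s => |F s|) (fun _ _ => abs_nonneg _)
      (Finset.mem_product.2 ⟨hy, Finset.mem_univ q⟩)
  have hdm0 : Dm B R F (fun _ i => Dd * (i : ℕ)) := by
    refine ⟨fun y _ i j hij => ?_, fun y hy q i j hij _ _ => ?_⟩
    · refine mul_le_mul_of_nonneg_left ?_ hDd0
      exact_mod_cast hij
    · have h1 := hFs y hy q
      have h2 := hFs y hy (q * Equiv.swap i j)
      have h3 : |F (y, q * Equiv.swap i j) - F (y, q)| ≤
          |F (y, q * Equiv.swap i j)| + |F (y, q)| := abs_sub _ _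
      have h4 : ((i : ℕ) : ℝ) + 1 ≤ ((j : ℕ) : ℝ) := by
        have : (i : ℕ) + 1 ≤ (j : ℕ) := hij
        exact_mod_cast this
      nlinarith
  have hdm := fun k => iter_dm X3 h hε hc3 hdm0 k
  -- decay of the tagged particle
  have htag : ∀ v : Fin n, ∃ C x : ℝ, 0 ≤ C ∧ ∀ k : ℕ, ∀ y ∈ B, ∀ q : Equiv.Perm (Fin n),
      |((tg B p a l ε)^[k]) (fun _ i => Dd * (i : ℕ)) y (q⁻¹ v) - x| ≤ C * (1 - ε / K) ^ k := by
    intro v
    set G : Y × Equiv.Perm (Fin n) → ℝ := fun s => Dd * ((s.2⁻¹ v : Fin n) : ℕ) with hG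
    set W : ℝ := ∑ s ∈ sts B fun _ _ : Fin n => False, p s.1 with hW
    set x : ℝ := (∑ s ∈ sts B fun _ _ => False, p s.1 * G s) / W with hx
    have hmean : ∑ s ∈ sts B fun _ _ => False, p s.1 * (G s - x) = 0 := by
      rcases Finset.eq_empty_or_nonempty (sts B fun _ _ : Fin n => False) with h1 | h1
      · rw [h1, Finset.sum_empty]
      · have h2 : 0 < W := Finset.sum_pos (fun s hs => (ch h _).pos s hs) h1
        have h3 : ∑ s ∈ sts B fun _ _ => False, p s.1 * (G s - x) =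
            ∑ s ∈ sts B fun _ _ => False, p s.1 * G s - W * x := by
          rw [hW, Finset.sum_mul, ← Finset.sum_sub_distrib]
          refine Finset.sum_congr rfl fun s _ => ?_
          ring
        rw [h3, hx]
        field_simp
        ring
    obtain ⟨C, hC, h1⟩ := pw (sts B fun _ _ => False) (fun s => p s.1) (cd a l) X1 K ε (ch h _) hK
      hε hεK hc1 hP (fun s => G s - x) hmean
    refine ⟨C, x, hC, fun k y hy q => ?_⟩
    have h2 := h1 k (y, q) ((mem_sts' y q).2 hy)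
    rw [iter_sub] at h2
    have h3 := (X5 n Y B p a l R ε h).1 (fun _ i => Dd * (i : ℕ)) v k y hy q
    rw [← h3]
    exact h2
  have hosc : ∃ C : ℝ, 0 ≤ C ∧ ∀ k : ℕ, ∀ y ∈ B, ∀ i j : Fin n,
      ((tg B p a l ε)^[k]) (fun _ i => Dd * (i : ℕ)) y j -
        ((tg B p a l ε)^[k]) (fun _ i => Dd * (i : ℕ)) y i ≤ C * (1 - ε / K) ^ k := by
    rcases isEmpty_or_nonempty (Fin n) with hn | ⟨⟨v⟩⟩
    · exact ⟨0, le_rfl, fun k y _ i => (hn.false i).elim⟩
    · obtain ⟨C, x, hC, h1⟩ := htag v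
      refine ⟨2 * C, by positivity, fun k y hy i j => ?_⟩
      have h2 := h1 k y hy (Equiv.swap v i)
      have h3 := h1 k y hy (Equiv.swap v j)
      rw [Equiv.swap_inv, Equiv.swap_apply_left] at h2 h3
      rw [abs_le] at h2 h3
      linarith [h2.1, h3.2]
  obtain ⟨C1, hC1, hosc1⟩ := hosc
  -- oscillation of F_k
  have hosc2 : ∀ k : ℕ, ∀ y ∈ B, ∀ q ∈ Lin R, ∀ q' ∈ Lin R,
      |((st (sts B R) (fun s => p s.1) (cd a l) ε)^[k]) F (y, q) -
        ((st (sts B R) (fun s => p s.1) (cd a l) ε)^[k]) F (y, q')| ≤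
      M * (C1 * (1 - ε / K) ^ k) := by
    intro k y hy
    refine hM R (fun q => ((st (sts B R) (fun s => p s.1) (cd a l) ε)^[k]) F (y, q))
      (C1 * (1 - ε / K) ^ k) (mul_nonneg hC1 (pow_nonneg hθ k)) ?_
    intro q hq i j hij hq2
    have hlt : i < j := by
      rw [Fin.lt_def]
      omega
    exact ((hdm k).dom y hy q i j hlt hq hq2).trans (hosc1 k y hy i j)
  -- the sum over the labels
  have hmean2 : ∑ s ∈ sts B fun _ _ : Fin n => False, p s.1 * ∑ t ∈ sts {s.1} R, F t = 0 := by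
    have h2 : ∑ y ∈ B, p y * ∑ t ∈ sts {y} R, F t = 0 := by
      rw [← hF, sts_eq B R, Finset.sum_product]
      refine Finset.sum_congr rfl fun y _ => ?_
      rw [sum_sts, Finset.mul_sum]
    rw [sts_eq B fun _ _ : Fin n => False, Finset.sum_product_right]
    rw [Finset.sum_congr rfl fun q _ => h2, Finset.sum_const_zero]
  obtain ⟨C2, hC2, hsum⟩ := pw (sts B fun _ _ => False) (fun s => p s.1) (cd a l) X1 K ε (ch h _)
    hK hε hεK hc1 hP (fun s => ∑ t ∈ sts {s.1} R, F t) hmean2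
  have hsum2 : ∀ k : ℕ, ∀ y ∈ B,
      |∑ q ∈ LL R, ((st (sts B R) (fun s => p s.1) (cd a l) ε)^[k]) F (y, q)| ≤ C2 * (1 - ε / K) ^ k := by
    intro k y hy
    have h1 := hsum k (y, 1) ((mem_sts' y 1).2 hy)
    rw [(X5 n Y B p a l R ε h).2 F k y hy 1] at h1
    rw [sum_sts] at h1
    exact h1
  -- pointwise decay
  have hpw : ∀ k : ℕ, ∀ s ∈ sts B R,
      |((st (sts B R) (fun s => p s.1) (cd a l) ε)^[k]) F s| ≤
        (C2 + Fintype.card (Equiv.Perm (Fin n)) * (|M| * C1)) * (1 - ε / K) ^ k := by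
    rintro k ⟨y, q⟩ hs
    rw [mem_sts] at hs
    obtain ⟨hy, hq⟩ := hs
    set L : Finset (Equiv.Perm (Fin n)) := LL R with hL
    set f : Equiv.Perm (Fin n) → ℝ :=
      fun q => ((st (sts B R) (fun s => p s.1) (cd a l) ε)^[k]) F (y, q) with hf
    have hqL : q ∈ L := (mem_LL R q).2 hq
    have h1 : (1 : ℝ) ≤ L.card := by
      exact_mod_cast Finset.card_pos.2 ⟨q, hqL⟩
    have h2 : (L.card : ℝ) * f q = ∑ q' ∈ L, f q' + ∑ q' ∈ L, (f q - f q') := by
      rw [← Finset.sum_add_distrib]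
      simp
    have h3 : |∑ q' ∈ L, (f q - f q')| ≤ L.card * (|M| * (C1 * (1 - ε / K) ^ k)) := by
      refine (Finset.abs_sum_le_sum_abs _ _).trans ?_
      rw [← nsmul_eq_mul]
      refine Finset.sum_le_card_nsmul _ _ _ fun q' hq' => ?_
      refine (hosc2 k y hy q hq q' ((mem_LL R q').1 hq')).trans ?_
      exact mul_le_mul_of_nonneg_right (le_abs_self M) (mul_nonneg hC1 (pow_nonneg hθ k))
    have h4 : |(L.card : ℝ) * f q| ≤ C2 * (1 - ε / K) ^ k +
        L.card * (|M| * (C1 * (1 - ε / K) ^ k)) := by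
      rw [h2]
      exact (abs_add_le _ _).trans (add_le_add (hsum2 k y hy) h3)
    rw [abs_mul, abs_of_nonneg (by linarith : (0 : ℝ) ≤ (L.card : ℝ))] at h4
    have h5 : |f q| ≤ L.card * |f q| := by nlinarith [abs_nonneg (f q)]
    have h6 : (L.card : ℝ) ≤ Fintype.card (Equiv.Perm (Fin n)) := by
      exact_mod_cast Finset.card_le_univ L
    have h7 : (L.card : ℝ) * (|M| * (C1 * (1 - ε / K) ^ k)) ≤
        Fintype.card (Equiv.Perm (Fin n)) * (|M| * (C1 * (1 - ε / K) ^ k)) :=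
      mul_le_mul_of_nonneg_right h6
        (mul_nonneg (abs_nonneg _) (mul_nonneg hC1 (pow_nonneg hθ k)))
    calc |f q| ≤ C2 * (1 - ε / K) ^ k +
        Fintype.card (Equiv.Perm (Fin n)) * (|M| * (C1 * (1 - ε / K) ^ k)) := by linarith
      _ = _ := by ring
  refine ⟨∑ s ∈ sts B R, p s.1 * (C2 + Fintype.card (Equiv.Perm (Fin n)) * (|M| * C1)) ^ 2,
    fun k => ?_⟩
  rw [Finset.sum_mul]
  refine Finset.sum_le_sum fun s hs => ?_
  rw [mul_assoc]
  refine mul_le_mul_of_nonneg_left ?_ ((ch h R).pos s hs).le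
  have h1 := hpw k s hs
  have h2 := sq_le_sq' (abs_le.1 h1).1 (abs_le.1 h1).2
  refine h2.trans (le_of_eq ?_)
  ring

end Pool.Agent.J4H44.XC.Cmp
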