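import Pool.Agent.J4H13.XC.X3
import Pool.Agent.J4H44.XC.X6

/-!
# (X5) of project XC: the tagged particle and the mean over the labels
-/

set_option autoImplicit false

namespace Pool.Agent.J4H44.XC.Tag

open Finset Pool.Agent.J4H58.XC Pool.Agent.J4H44.XC.Cmp Pool.Agent.J4H13.XC

variable {n : ℕ} {Y : Type} [DecidableEq Y]

lemma st_false (B : Finset Y) (p : Y → ℝ) (a : Y → Y → ℝ) (l : ℕ → Y → ℝ) (ε : ℝ)
    (F : Y × Equiv.Perm (Fin n) → ℝ) {y : Y} (hy : y ∈ B) (q : Equiv.Perm (Fin n)) :
    st (sts B fun _ _ => False) (fun s => p s.1) (cd a l) ε F (y, q) = F (y, q) + ε / p y *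
      (∑ z ∈ B, a y z * (F (z, q) - F (y, q)) +
        ∑ w ∈ nb n, l w.1 y * (F (y, q * Equiv.swap w.1 w.2) - F (y, q))) := by
  rw [st_eq B p a l _ ε F hy (lin_false q)]
  congr 3
  refine Finset.sum_congr rfl fun w _ => ?_
  rw [if_pos (lin_false _)]

open Classical in
lemma swap_sum (R : Fin n → Fin n → Prop) (h : Equiv.Perm (Fin n) → ℝ) (i j : Fin n) :
    ∑ q ∈ LL R, (if q * Equiv.swap i j ∈ Lin R then h (q * Equiv.swap i j) - h q else 0) = 0 := by
  have e1 : ∑ q ∈ LL R, (if q * Equiv.swap i j ∈ Lin R then h (q * Equiv.swap i j) - h q else 0) =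
      ∑ q : Equiv.Perm (Fin n), (if q ∈ Lin R ∧ q * Equiv.swap i j ∈ Lin R then
        h (q * Equiv.swap i j) else 0) -
      ∑ q : Equiv.Perm (Fin n), (if q ∈ Lin R ∧ q * Equiv.swap i j ∈ Lin R then h q else 0) := by
    rw [← Finset.sum_sub_distrib, LL, Finset.sum_filter]
    refine Finset.sum_congr rfl fun q _ => ?_
    by_cases h1 : q ∈ Lin R <;> by_cases h2 : q * Equiv.swap i j ∈ Lin R <;> simp [h1, h2]
  have e2 : ∑ q : Equiv.Perm (Fin n), (if q ∈ Lin R ∧ q * Equiv.swap i j ∈ Lin R then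
        h (q * Equiv.swap i j) else 0) =
      ∑ q : Equiv.Perm (Fin n), (if q ∈ Lin R ∧ q * Equiv.swap i j ∈ Lin R then h q else 0) := by
    rw [← Equiv.sum_comp (Equiv.mulRight (Equiv.swap i j))
      (fun q => if q ∈ Lin R ∧ q * Equiv.swap i j ∈ Lin R then h q else 0)]
    refine Finset.sum_congr rfl fun q _ => ?_
    rw [Equiv.coe_mulRight, mul_assoc, Equiv.swap_mul_self, mul_one]
    simp only [and_comm]
  rw [e1, e2, sub_self]

open Classical in
theorem t_X5 : S_X5 := by
  intro n Y _ B p a l R ε h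
  refine ⟨?_, ?_⟩
  · intro Θ v k
    induction k with
    | zero => intro y _ q; rfl
    | succ k ih =>
      intro y hy q
      rw [Function.iterate_succ_apply', Function.iterate_succ_apply', st_false B p a l ε _ hy q,
        tg_eq, ih y hy q]
      congr 3
      · refine Finset.sum_congr rfl fun z hz => ?_
        rw [ih z hz q]
      · refine Finset.sum_congr rfl fun w _ => ?_
        rw [ih y hy (q * Equiv.swap w.1 w.2), mul_inv_rev, Equiv.swap_inv]
        rfl
  · intro F k
    induction k with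
    | zero => intro y _ q; rfl
    | succ k ih =>
      intro y hy q
      rw [Function.iterate_succ_apply', Function.iterate_succ_apply', st_false B p a l ε _ hy q]
      have e1 : ∀ q' ∈ LL R, st (sts B R) (fun s => p s.1) (cd a l) ε
          (((st (sts B R) (fun s => p s.1) (cd a l) ε)^[k]) F) (y, q') = _ := fun q' hq' =>
        st_eq B p a l R ε _ hy ((mem_LL R q').1 hq')
      rw [sum_sts, Finset.sum_congr rfl e1, Finset.sum_add_distrib, ← Finset.mul_sum,
        Finset.sum_add_distrib, ih y hy q, sum_sts]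
      have e2 : ∑ w ∈ nb n, l w.1 y *
          (((st (sts B fun _ _ => False) (fun s => p s.1) (cd a l) ε)^[k])
            (fun s => ∑ t ∈ sts {s.1} R, F t) (y, q * Equiv.swap w.1 w.2) -
            ∑ q ∈ LL R, ((st (sts B R) (fun s => p s.1) (cd a l) ε)^[k]) F (y, q)) = 0 := by
        refine Finset.sum_eq_zero fun w _ => ?_
        rw [ih y hy (q * Equiv.swap w.1 w.2), sum_sts, sub_self, mul_zero]
      rw [e2, add_zero]
      congr 2
      have e3 : ∀ f : Equiv.Perm (Fin n) → ℝ, ∑ q ∈ LL R, ∑ w ∈ nb n, l w.1 y *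
          (if q * Equiv.swap w.1 w.2 ∈ Lin R then f (q * Equiv.swap w.1 w.2) - f q else 0) = 0 := by
        intro f
        rw [Finset.sum_comm]
        refine Finset.sum_eq_zero fun w _ => ?_
        rw [← Finset.mul_sum, swap_sum, mul_zero]
      rw [e3 (fun q => ((st (sts B R) (fun s => p s.1) (cd a l) ε)^[k]) F (y, q)), add_zero,
        Finset.sum_comm]
      refine Finset.sum_congr rfl fun z hz => ?_
      rw [← Finset.mul_sum, Finset.sum_sub_distrib, ih z hz q, sum_sts]

end Pool.Agent.J4H44.XC.Tag
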